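import Mathlib
import Pool.Agent.RadSemi.Alg0

set_option autoImplicit false

namespace Pool.Agent.Results.MP_3d411c_an.LocallyUnbounded

open Filter Topology
open Pool.Agent.RadSemi (IsRadical IsRealSemigroup)

/-- There is a separable commutative radical Banach algebra, an integral domain, which contains a
real semigroup without zero values, while every nonzero real semigroup in it is unbounded on every
open subinterval of `(0,∞)`; in particular it has no nonzero continuous real semigroup. -/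
theorem result : ∃ (R : Type) (_ : NonUnitalNormedCommRing R) (_ : NormedSpace ℂ R)
    (_ : IsScalarTower ℂ R R) (_ : SMulCommClass ℂ R R) (_ : CompleteSpace R)
    (_ : TopologicalSpace.SeparableSpace R),
    IsRadical R ∧
    (∀ x y : R, x * y = 0 → x = 0 ∨ y = 0) ∧
    (∃ a : ℝ → R, IsRealSemigroup a ∧ ∀ t : ℝ, 0 < t → a t ≠ 0) ∧
    (∀ b : ℝ → R, IsRealSemigroup b → (∃ t : ℝ, 0 < t ∧ b t ≠ 0) →
      ∀ u v : ℝ, 0 < u → u < v → ∀ C : ℝ, ∃ t : ℝ, u < t ∧ t < v ∧ C < ‖b t‖) ∧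
    ¬ ∃ b : ℝ → R, IsRealSemigroup b ∧ (∃ t : ℝ, 0 < t ∧ b t ≠ 0) ∧
      ContinuousOn b (Set.Ioi 0) := by
  have key : ∀ b : ℝ → Pool.Agent.RadSemi.R0, IsRealSemigroup b →
      (∃ t : ℝ, 0 < t ∧ b t ≠ 0) →
      ∀ u v : ℝ, 0 < u → u < v → ∀ C : ℝ, ∃ t : ℝ, u < t ∧ t < v ∧ C < ‖b t‖ := by
    rintro b hb ⟨t0, ht0, hbt0⟩ u v hu huv C
    by_contra hcon
    push Not at hcon
    exact hbt0 (Pool.Agent.RadSemi.vanish_of_bounded b hb u v hu huv C hcon t0 ht0)
  refine ⟨Pool.Agent.RadSemi.R0, inferInstance, inferInstance, inferInstance, inferInstance,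
    inferInstance, inferInstance, Pool.Agent.RadSemi.radical_R0,
    Pool.Agent.RadSemi.domain_R0, Pool.Agent.RadSemi.exists_semigroup, key, ?_⟩
  rintro ⟨b, hb, hnz, hcont⟩
  have hc : ContinuousOn (fun t => ‖b t‖) (Set.Icc 1 2) :=
    (hcont.mono (fun t ht => lt_of_lt_of_le one_pos ht.1)).norm
  obtain ⟨C, hC⟩ := isCompact_Icc.bddAbove_image hc
  obtain ⟨t, ht1, ht2, htC⟩ := key b hb hnz 1 2 one_pos one_lt_two C
  exact absurd (hC ⟨t, ⟨ht1.le, ht2.le⟩, rfl⟩) (not_le.mpr htC)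

end Pool.Agent.Results.MP_3d411c_an.LocallyUnbounded
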